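import Mathlib

set_option autoImplicit false

namespace Pool.Agent.Results.MP_f8f7ac_co.TransitiveAsym

/-- The real Euclidean plane. -/
abbrev Plane := EuclideanSpace ℝ (Fin 2)

/-- A combinatorial configuration of type (n_3). -/
structure Config (n : ℕ) where
  /-- `inc i j` means that the point `i` is incident with the line `j` -/
  inc : Fin n → Fin n → Prop
  lines_through : ∀ i, {j | inc i j}.ncard = 3
  points_on : ∀ j, {i | inc i j}.ncard = 3
  unique_line : ∀ i i' j j', i ≠ i' → inc i j → inc i' j → inc i j' → inc i' j' → j = j'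

/-- An automorphism: a permutation of the points and a permutation of the lines which together
preserve incidence in both directions. -/
def IsAut {n : ℕ} (C : Config n) (s t : Equiv.Perm (Fin n)) : Prop :=
  ∀ i j, C.inc (s i) (t j) ↔ C.inc i j

def PointTransitive {n : ℕ} (C : Config n) : Prop :=
  ∀ i i', ∃ s t, IsAut C s t ∧ s i = i'

def LineTransitive {n : ℕ} (C : Config n) : Prop :=
  ∀ j j', ∃ s t, IsAut C s t ∧ t j = j'

def FlagTransitive {n : ℕ} (C : Config n) : Prop :=
  ∀ i j i' j', C.inc i j → C.inc i' j' → ∃ s t, IsAut C s t ∧ s i = i' ∧ t j = j'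

/-- A geometric realization in the Euclidean plane: pairwise distinct points, pairwise distinct
straight lines, and a realized point lies on a realized line if and only if the two are incident. -/
structure Realization {n : ℕ} (C : Config n) where
  pt : Fin n → Plane
  ln : Fin n → AffineSubspace ℝ Plane
  pt_inj : Function.Injective pt
  ln_inj : Function.Injective ln
  ln_line : ∀ j, (ln j : Set Plane).Nonempty ∧ Module.finrank ℝ (ln j).direction = 1
  inc_iff : ∀ i j, pt i ∈ ln j ↔ C.inc i j

/-- A symmetry of a realization: an isometry of the plane which maps the set of realized points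
onto itself and the set of realized lines onto itself. -/
def IsSymmetry {n : ℕ} {C : Config n} (R : Realization C) (f : Plane ≃ᵢ Plane) : Prop :=
  f '' Set.range R.pt = Set.range R.pt ∧
  (fun s : Set Plane => f '' s) '' Set.range (fun j => (R.ln j : Set Plane)) =
    Set.range (fun j => (R.ln j : Set Plane))

/-! ### The configuration -/

def inc13 (i j : Fin 13) : Prop := i = j + 1 ∨ i = j + 3 ∨ i = j + 9

instance (i j : Fin 13) : Decidable (inc13 i j) := by unfold inc13; infer_instance

def C13 : Config 13 where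
  inc := inc13
  lines_through := by
    intro i
    rw [Set.ncard_eq_toFinset_card']
    revert i; decide +kernel
  points_on := by
    intro j
    rw [Set.ncard_eq_toFinset_card']
    revert j; decide +kernel
  unique_line := by decide +kernel

/-! ### Automorphisms -/

theorem aff_inj : ∀ a b : Fin 13, (a = 1 ∨ a = 3 ∨ a = 9) →
    Function.Injective (fun x : Fin 13 => a * x + b) := by
  decide +kernel

noncomputable def affPerm (a b : Fin 13) (h : a = 1 ∨ a = 3 ∨ a = 9) : Equiv.Perm (Fin 13) :=
  Equiv.ofBijective (fun x : Fin 13 => a * x + b) (Finite.injective_iff_bijective.mp (aff_inj a b h))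

theorem aff_aut' : ∀ a b : Fin 13, (a = 1 ∨ a = 3 ∨ a = 9) → ∀ i j : Fin 13,
    (inc13 (a * i + b) (a * j + b) ↔ inc13 i j) := by
  decide +kernel

theorem aff_aut (a b : Fin 13) (h : a = 1 ∨ a = 3 ∨ a = 9) :
    IsAut C13 (affPerm a b h) (affPerm a b h) := by
  intro i j
  exact aff_aut' a b h i j

theorem flag_ex : ∀ i j : Fin 13, inc13 i j → ∀ i' j' : Fin 13, inc13 i' j' →
    ∃ a : Fin 13, (a = 1 ∨ a = 3 ∨ a = 9) ∧ ∃ b : Fin 13, a * i + b = i' ∧ a * j + b = j' := by
  decide +kernel

theorem flagTransitive : FlagTransitive C13 := by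
  intro i j i' j' h h'
  obtain ⟨a, ha, b, h1, h2⟩ := flag_ex i j h i' j' h'
  exact ⟨affPerm a b ha, affPerm a b ha, aff_aut a b ha, h1, h2⟩

theorem pointTransitive : PointTransitive C13 := by
  intro i i'
  have h1 : ∀ i : Fin 13, ∃ j, inc13 i j := by decide +kernel
  obtain ⟨j, hj⟩ := h1 i
  obtain ⟨j', hj'⟩ := h1 i'
  obtain ⟨s, t, h, h2, _⟩ := flagTransitive i j i' j' hj hj'
  exact ⟨s, t, h, h2⟩

theorem lineTransitive : LineTransitive C13 := by
  intro j j'
  have h1 : ∀ j : Fin 13, ∃ i, inc13 i j := by decide +kernel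
  obtain ⟨i, hi⟩ := h1 j
  obtain ⟨i', hi'⟩ := h1 j'
  obtain ⟨s, t, h, _, h2⟩ := flagTransitive i j i' j' hi hi'
  exact ⟨s, t, h, h2⟩

/-! ### Plane geometry -/

theorem mem_line_iff {P Q R : Plane} (h : P ≠ Q) :
    R ∈ line[ℝ, P, Q] ↔ (Q 0 - P 0) * (R 1 - P 1) = (Q 1 - P 1) * (R 0 - P 0) := by
  rw [mem_affineSpan_pair_iff_exists_lineMap_eq]
  constructor
  · rintro ⟨r, rfl⟩
    simp [AffineMap.lineMap_apply]
    ring
  · intro e
    have hne : Q 0 - P 0 ≠ 0 ∨ Q 1 - P 1 ≠ 0 := by
      by_contra hc
      push Not at hc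
      apply h
      ext k
      fin_cases k
      · simp; linarith [hc.1]
      · simp; linarith [hc.2]
    rcases hne with h0 | h1
    · refine ⟨(R 0 - P 0) / (Q 0 - P 0), ?_⟩
      ext k
      fin_cases k
      · simp [AffineMap.lineMap_apply]; field_simp; ring
      · simp [AffineMap.lineMap_apply]; field_simp; linarith
    · refine ⟨(R 1 - P 1) / (Q 1 - P 1), ?_⟩
      ext k
      fin_cases k
      · simp [AffineMap.lineMap_apply]; field_simp; linarith
      · simp [AffineMap.lineMap_apply]; field_simp; ring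

theorem line_finrank {P Q : Plane} (h : P ≠ Q) :
    Module.finrank ℝ (line[ℝ, P, Q]).direction = 1 := by
  rw [direction_affineSpan, vectorSpan_pair_rev]
  exact finrank_span_singleton (by simpa [sub_eq_zero] using h.symm)

theorem collinear_of_mem {ℓ : AffineSubspace ℝ Plane} (h : Module.finrank ℝ ℓ.direction = 1)
    {a b c : Plane} (ha : a ∈ ℓ) (hb : b ∈ ℓ) (hc : c ∈ ℓ) : Collinear ℝ {a, b, c} := by
  rw [collinear_iff_finrank_le_one, ← h]
  have hs : ({a, b, c} : Set Plane) ⊆ ℓ := by
    intro x hx
    simp at hx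
    rcases hx with rfl | rfl | rfl <;> assumption
  have : vectorSpan ℝ ({a, b, c} : Set Plane) ≤ ℓ.direction := by
    have := vectorSpan_mono ℝ hs
    simpa [AffineSubspace.direction] using this
  exact Submodule.finrank_mono this

/-- three distinct collinear points are not pairwise equidistant in the cyclic sense -/
theorem no_cyc {a b c : Plane} (hc : Collinear ℝ {a, b, c}) (hab : a ≠ b)
    (h1 : dist a b = dist b c) (h2 : dist b c = dist c a) : False := by
  have hpos : 0 < dist a b := dist_pos.mpr hab
  rcases hc.wbtw_or_wbtw_or_wbtw with h | h | h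
  · have := h.dist_add_dist; rw [dist_comm a c] at this; linarith
  · have := h.dist_add_dist; rw [dist_comm b a] at this; linarith
  · have := h.dist_add_dist; rw [dist_comm c b] at this; linarith

theorem no_circ {a b c o : Plane} (hc : Collinear ℝ {a, b, c}) (hab : a ≠ b) (hac : a ≠ c) (hbc : b ≠ c)
    (h1 : dist a o = dist b o) (h2 : dist b o = dist c o) : False := by
  have hs : EuclideanGeometry.Cospherical ({a, b, c} : Set Plane) := by
    refine ⟨o, dist a o, ?_⟩
    intro p hp
    simp at hp
    rcases hp with rfl | rfl | rfl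
    · rfl
    · exact h1.symm
    · rw [h1, h2]
  have := hs.affineIndependent_of_ne hab hac hbc
  rw [affineIndependent_iff_not_collinear_set] at this
  exact this hc

/-- an isometry which permutes a finite family of points fixes their centroid -/
theorem centroid_fixed {n : ℕ} [NeZero n] (p : Fin n → Plane) (f : Plane ≃ᵢ Plane) (s : Equiv.Perm (Fin n))
    (h : ∀ i, f (p i) = p (s i)) : f (Finset.univ.centroid ℝ p) = Finset.univ.centroid ℝ p := by
  have h1 : (∑ i : Fin n, Finset.centroidWeights ℝ Finset.univ i) = 1 :=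
    Finset.sum_centroidWeights_eq_one_of_card_ne_zero ℝ _ (by simp [NeZero.ne])
  have h2 := Finset.map_affineCombination (k := ℝ) Finset.univ p (Finset.centroidWeights ℝ Finset.univ) h1
    (f.toRealAffineIsometryEquiv.toAffineEquiv.toAffineMap)
  have h3 : ∀ x, (f.toRealAffineIsometryEquiv.toAffineEquiv.toAffineMap) x = f x := fun x => rfl
  rw [h3] at h2
  rw [Finset.centroid_def, h2]
  have h4 : (⇑(f.toRealAffineIsometryEquiv.toAffineEquiv.toAffineMap) ∘ p) = p ∘ s := by
    funext i
    exact h i
  rw [h4]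
  have h5 := Finset.affineCombination_map (k := ℝ) Finset.univ s.toEmbedding (Finset.centroidWeights ℝ Finset.univ) p
  simp only [Finset.map_univ_equiv] at h5
  rw [h5]
  rfl

/-- an isometry of the plane fixing three non-collinear points is the identity -/
theorem eq_refl_of_fix {a b c : Plane} (f : Plane ≃ᵢ Plane) (hc : ¬ Collinear ℝ {a, b, c})
    (ha : f a = a) (hb : f b = b) (hc' : f c = c) : f = IsometryEquiv.refl Plane := by
  rw [← affineIndependent_iff_not_collinear_set] at hc
  have h1 := (hc.affineSpan_eq_top_iff_card_eq_finrank_add_one).mpr (by simp)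
  have h2 : f.toRealAffineIsometryEquiv.toAffineEquiv.toAffineMap = AffineMap.id ℝ Plane := by
    apply AffineMap.ext_on h1
    intro x hx
    obtain ⟨i, rfl⟩ := hx
    fin_cases i
    · exact ha
    · exact hb
    · exact hc'
  ext1 x
  exact congrArg (fun g : Plane →ᵃ[ℝ] Plane => g x) h2

/-! ### A rational realization -/

def xq : Fin 13 → ℚ := ![1, -1/4, -1, 1, 1, 1/2, -1/2, 0, 0, 1/2, 3, 0, -1/3]
def yq : Fin 13 → ℚ := ![-2, 0, 3, 0, 1, -1/2, -1/2, 1, 1/2, 0, -1, -1, -1/3]

theorem coords_inj : ∀ i j : Fin 13, xq i = xq j → yq i = yq j → i = j := by decide +kernel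

theorem coords_det : ∀ i j : Fin 13,
    ((xq (j + 3) - xq (j + 1)) * (yq i - yq (j + 1)) = (yq (j + 3) - yq (j + 1)) * (xq i - xq (j + 1)))
      ↔ inc13 i j := by decide +kernel

noncomputable def rpt (i : Fin 13) : Plane := !₂[(xq i : ℝ), (yq i : ℝ)]

theorem rpt_inj : Function.Injective rpt := by
  intro i j h
  have h0 : rpt i 0 = rpt j 0 := by rw [h]
  have h1 : rpt i 1 = rpt j 1 := by rw [h]
  simp only [rpt, PiLp.toLp_apply, Matrix.cons_val_zero, Matrix.cons_val_one] at h0 h1
  exact coords_inj i j (by exact_mod_cast h0) (by exact_mod_cast h1)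

theorem rne (j : Fin 13) : rpt (j + 1) ≠ rpt (j + 3) := by
  intro h
  have h1 := rpt_inj h
  have h2 : ∀ j : Fin 13, j + 1 ≠ j + 3 := by decide
  exact h2 j h1

noncomputable def rln (j : Fin 13) : AffineSubspace ℝ Plane := line[ℝ, rpt (j + 1), rpt (j + 3)]

theorem rinc (i j : Fin 13) : rpt i ∈ rln j ↔ inc13 i j := by
  rw [rln, mem_line_iff (rne j), ← coords_det i j]
  simp only [rpt, PiLp.toLp_apply, Matrix.cons_val_zero, Matrix.cons_val_one]
  exact_mod_cast Iff.rfl

theorem sep : ∀ j j' : Fin 13, (∀ i, inc13 i j ↔ inc13 i j') → j = j' := by decide +kernel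

noncomputable def R13 : Realization C13 where
  pt := rpt
  ln := rln
  pt_inj := rpt_inj
  ln_inj := by
    intro j j' h
    apply sep
    intro i
    rw [← rinc, ← rinc, h]
  ln_line := by
    intro j
    exact ⟨⟨rpt (j + 1), left_mem_affineSpan_pair ℝ _ _⟩, line_finrank (rne j)⟩
  inc_iff := rinc

/-! ### The automorphisms of the configuration -/

/-- the third point on the line through two collinear points of the configuration -/
def third (x y : Fin 13) : Fin 13 :=
  if y = x + 2 then x + 8 else if y = x + 8 then x + 2 else if y = x + 11 then x + 6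
  else if y = x + 6 then x + 11 else if y = x + 5 then x + 7 else x + 5

def tri (x y z : Fin 13) : Prop := ∃ j : Fin 13, inc13 x j ∧ inc13 y j ∧ inc13 z j

instance (x y z : Fin 13) : Decidable (tri x y z) := by unfold tri; infer_instance

theorem third_eq : ∀ x y z : Fin 13, x ≠ y → x ≠ z → y ≠ z → tri x y z → z = third x y := by
  decide +kernel

/-- `x` and `y` are distinct collinear points -/
def adj (x y : Fin 13) : Bool :=
  y = x + 2 || y = x + 8 || y = x + 11 || y = x + 6 || y = x + 5 || y = x + 7

theorem adj_of : ∀ x y z : Fin 13, x ≠ y → tri x y z → adj x y = true := by decide +kernel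

def img (a b c d : Fin 13) : Fin 13 → Fin 13 :=
  let e8 := third a b
  let e6 := third a c
  let e7 := third a d
  let e1 := third e6 e8
  let e3 := third d c
  let e12 := third e1 e7
  let e9 := third e7 b
  let e4 := third e9 c
  let e10 := third b e4
  ![a, e1, b, e3, e4, d, e6, e7, e8, e9, e10, c, e12]

def good (s : Fin 13 → Fin 13) : Prop :=
  (∃ t : Fin 13, ∀ i, s i = i + t) ∨
  (∃ x y z : Fin 13, tri x y z ∧ x ≠ y ∧ s x = y ∧ s y = z ∧ s z = x)

def goodB (s : Fin 13 → Fin 13) : Bool :=
  decide (∃ t : Fin 13, ∀ i, s i = i + t) ||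
  decide (∃ j : Fin 13, s (j + 1) = j + 3 ∧ s (j + 3) = j + 9 ∧ s (j + 9) = j + 1) ||
  decide (∃ j : Fin 13, s (j + 3) = j + 1 ∧ s (j + 9) = j + 3 ∧ s (j + 1) = j + 9)

theorem ne13 : ∀ j : Fin 13, j + 1 ≠ j + 3 ∧ j + 3 ≠ j + 1 := by decide

theorem good_of_goodB (s : Fin 13 → Fin 13) (h : goodB s = true) : good s := by
  simp only [goodB, Bool.or_eq_true, decide_eq_true_eq] at h
  rcases h with (h | ⟨j, h1, h2, h3⟩) | ⟨j, h1, h2, h3⟩
  · exact Or.inl h
  · right
    exact ⟨j + 1, j + 3, j + 9, ⟨j, Or.inl rfl, Or.inr (Or.inl rfl), Or.inr (Or.inr rfl)⟩, (ne13 j).1, h1, h2, h3⟩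
  · right
    exact ⟨j + 3, j + 1, j + 9, ⟨j, Or.inr (Or.inl rfl), Or.inl rfl, Or.inr (Or.inr rfl)⟩, (ne13 j).2, h1, h3, h2⟩

def allLines (s : Fin 13 → Fin 13) : Bool :=
  decide (∀ j : Fin 13, adj (s (j + 1)) (s (j + 3)) = true ∧ s (j + 9) = third (s (j + 1)) (s (j + 3)))

theorem search : ∀ a b : Fin 13, adj a b = true → ∀ c : Fin 13, adj a c = true →
    ∀ d : Fin 13, adj a d = true → allLines (img a b c d) = true → goodB (img a b c d) = true := by
  decide +kernel

theorem aut_good (s t : Equiv.Perm (Fin 13)) (h : IsAut C13 s t) : good s := by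
  have htri : ∀ x y z, tri x y z → tri (s x) (s y) (s z) := by
    rintro x y z ⟨j, h1, h2, h3⟩
    exact ⟨t j, (h x j).mpr h1, (h y j).mpr h2, (h z j).mpr h3⟩
  have hth : ∀ x y z, x ≠ y → x ≠ z → y ≠ z → tri x y z → s z = third (s x) (s y) := by
    intro x y z h1 h2 h3 h4
    exact third_eq _ _ _ (s.injective.ne h1) (s.injective.ne h2) (s.injective.ne h3) (htri _ _ _ h4)
  have hadj : ∀ x y z, x ≠ y → tri x y z → adj (s x) (s y) = true := by
    intro x y z h1 h2
    exact adj_of _ _ _ (s.injective.ne h1) (htri _ _ _ h2)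
  have e8 : s 8 = third (s 0) (s 2) := hth 0 2 8 (by decide) (by decide) (by decide) (by decide)
  have e6 : s 6 = third (s 0) (s 11) := hth 0 11 6 (by decide) (by decide) (by decide) (by decide)
  have e7 : s 7 = third (s 0) (s 5) := hth 0 5 7 (by decide) (by decide) (by decide) (by decide)
  have e1 : s 1 = third (s 6) (s 8) := hth 6 8 1 (by decide) (by decide) (by decide) (by decide)
  have e3 : s 3 = third (s 5) (s 11) := hth 5 11 3 (by decide) (by decide) (by decide) (by decide)
  have e12 : s 12 = third (s 1) (s 7) := hth 1 7 12 (by decide) (by decide) (by decide) (by decide)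
  have e9 : s 9 = third (s 7) (s 2) := hth 7 2 9 (by decide) (by decide) (by decide) (by decide)
  have e4 : s 4 = third (s 9) (s 11) := hth 9 11 4 (by decide) (by decide) (by decide) (by decide)
  have e10 : s 10 = third (s 2) (s 4) := hth 2 4 10 (by decide) (by decide) (by decide) (by decide)
  have himg : (s : Fin 13 → Fin 13) = img (s 0) (s 2) (s 11) (s 5) := by
    funext i
    simp only [img, ← e8, ← e6, ← e7, ← e1, ← e3, ← e12, ← e9, ← e4, ← e10]
    fin_cases i <;> rfl
  have ha : allLines s = true := by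
    simp only [allLines, decide_eq_true_eq]
    intro j
    have hn : ∀ j : Fin 13, j + 1 ≠ j + 3 ∧ j + 1 ≠ j + 9 ∧ j + 3 ≠ j + 9 := by decide
    have ht : tri (j + 1) (j + 3) (j + 9) := ⟨j, Or.inl rfl, Or.inr (Or.inl rfl), Or.inr (Or.inr rfl)⟩
    exact ⟨hadj _ _ _ (hn j).1 ht, hth _ _ _ (hn j).1 (hn j).2.1 (hn j).2.2 ht⟩
  apply good_of_goodB
  rw [himg] at ha ⊢
  exact search _ _ (hadj 0 2 8 (by decide) (by decide)) _ (hadj 0 11 6 (by decide) (by decide)) _
    (hadj 0 5 7 (by decide) (by decide)) ha

/-! ### No realization has a non-trivial symmetry -/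

theorem exists_perm {α : Type} {n : ℕ} (p : Fin n → α) (hp : Function.Injective p) (f : α → α)
    (hf : Function.Injective f) (h : f '' Set.range p = Set.range p) :
    ∃ s : Equiv.Perm (Fin n), ∀ i, f (p i) = p (s i) := by
  have h1 : ∀ i, ∃ k, p k = f (p i) := by
    intro i
    have : f (p i) ∈ f '' Set.range p := ⟨p i, ⟨i, rfl⟩, rfl⟩
    rw [h] at this
    exact this
  choose s hs using h1
  have hinj : Function.Injective s := by
    intro i j hij
    have : f (p i) = f (p j) := by rw [← hs, ← hs, hij]
    exact hp (hf this)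
  exact ⟨Equiv.ofBijective s (Finite.injective_iff_bijective.mp hinj), fun i => (hs i).symm⟩

theorem no_symmetry (R : Realization C13) (f : Plane ≃ᵢ Plane) (h : IsSymmetry R f) :
    f = IsometryEquiv.refl Plane := by
  obtain ⟨s, hs⟩ := exists_perm R.pt R.pt_inj f f.injective h.1
  obtain ⟨t, ht⟩ := exists_perm (fun j => (R.ln j : Set Plane))
    (fun j j' hj => R.ln_inj (SetLike.coe_injective hj)) (fun u : Set Plane => f '' u)
    (Set.image_injective.mpr f.injective) h.2
  have haut : IsAut C13 s t := by
    intro i j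
    rw [← R.inc_iff, ← R.inc_iff, ← hs i]
    have h2 : ((R.ln (t j) : AffineSubspace ℝ Plane) : Set Plane) = f '' (R.ln j : Set Plane) := (ht j).symm
    rw [← SetLike.mem_coe, h2]
    exact f.injective.mem_set_image
  have hcol : ∀ x y z, tri x y z → Collinear ℝ {R.pt x, R.pt y, R.pt z} := by
    rintro x y z ⟨j, h1, h2, h3⟩
    exact collinear_of_mem (R.ln_line j).2 ((R.inc_iff _ _).mpr h1) ((R.inc_iff _ _).mpr h2)
      ((R.inc_iff _ _).mpr h3)
  have hd : ∀ i j, dist (R.pt (s i)) (R.pt (s j)) = dist (R.pt i) (R.pt j) := by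
    intro i j
    rw [← hs, ← hs]
    exact f.isometry.dist_eq _ _
  rcases aut_good s t haut with ⟨r, hr⟩ | ⟨x, y, z, hxyz, hne, h1, h2, h3⟩
  · by_cases hr0 : r = 0
    · subst hr0
      have hfix : ∀ i, f (R.pt i) = R.pt i := by
        intro i
        rw [hs i, hr i, add_zero]
      -- the points 0, 2, 11 are not collinear
      apply eq_refl_of_fix (a := R.pt 0) (b := R.pt 2) (c := R.pt 11) f ?_ (hfix _) (hfix _) (hfix _)
      intro hc
      have h02 : R.pt 0 ≠ R.pt 2 := R.pt_inj.ne (by decide)
      have i0 : inc13 0 12 := by decide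
      have i2 : inc13 2 12 := by decide
      have i11 : ¬ inc13 11 12 := by decide
      have h0 : R.pt 0 ∈ R.ln 12 := (R.inc_iff _ _).mpr i0
      have h2 : R.pt 2 ∈ R.ln 12 := (R.inc_iff _ _).mpr i2
      have h11 : R.pt 11 ∉ R.ln 12 := fun hh => i11 ((R.inc_iff _ _).mp hh)
      apply h11
      have h3 : R.pt 11 ∈ line[ℝ, R.pt 0, R.pt 2] :=
        hc.mem_affineSpan_of_mem_of_ne (by simp) (by simp) (by simp) h02
      exact (affineSpan_pair_le_of_mem_of_mem h0 h2) h3
    · exfalso
      have hcen := centroid_fixed R.pt f s hs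
      set o := Finset.univ.centroid ℝ R.pt with ho
      have hstep : ∀ i, dist (R.pt (i + r)) o = dist (R.pt i) o := by
        intro i
        rw [← hr i, ← hs i]
        conv_lhs => rw [← hcen]
        exact f.isometry.dist_eq _ _
      have hiter : ∀ k : ℕ, ∀ i : Fin 13, dist (R.pt (i + k • r)) o = dist (R.pt i) o := by
        intro k
        induction k with
        | zero => intro i; simp
        | succ k ih =>
          intro i
          rw [succ_nsmul, ← add_assoc, hstep, ih]
      have hgen : ∀ r : Fin 13, r ≠ 0 → ∀ d : Fin 13, ∃ k : Fin 13, k.val • r = d := by decide +kernel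
      have hall : ∀ i, dist (R.pt i) o = dist (R.pt 0) o := by
        intro i
        obtain ⟨k, hk⟩ := hgen r hr0 i
        have := hiter k.val 0
        rw [hk, zero_add] at this
        exact this
      exact no_circ (hcol 0 2 8 (by decide)) (R.pt_inj.ne (by decide)) (R.pt_inj.ne (by decide))
        (R.pt_inj.ne (by decide)) ((hall 0).trans (hall 2).symm) ((hall 2).trans (hall 8).symm)
  · exfalso
    apply no_cyc (hcol x y z hxyz) (R.pt_inj.ne hne)
    · rw [← hd x y, h1, h2]
    · rw [← hd y z, h2, h3]

/-- There is a configuration (n_3), namely one with `n = 13`, which is geometrically realizable in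
the Euclidean plane and whose automorphism group is transitive on points, on lines and on flags,
but each of whose geometric realizations has only the trivial symmetry. -/
theorem result :
    ∃ (n : ℕ) (C : Config n), Nonempty (Realization C) ∧
      PointTransitive C ∧ LineTransitive C ∧ FlagTransitive C ∧
      ∀ (R : Realization C) (f : Plane ≃ᵢ Plane), IsSymmetry R f → f = IsometryEquiv.refl Plane :=
  ⟨13, C13, ⟨R13⟩, pointTransitive, lineTransitive, flagTransitive, no_symmetry⟩

end Pool.Agent.Results.MP_f8f7ac_co.TransitiveAsym
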